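import Pool.Agent.Y399.LS.D

/-!
# The spectrum and the nullity of the Hasse diagram of `L(m,n)`

`adjL m n` is the real adjacency matrix of the Hasse diagram of `L(m,n)` (partitions inside the
`m × n` box), as in the file `Nonsingular`. Put `L = m + n + 1`.

For all `m, n ≥ 1`:

* `adjL m n` is nonsingular if and only if `m` and `n` are odd and `min m n` is smaller than the
  least prime factor of `L`;
* the eigenvalues of `adjL m n`, with their multiplicities, are the `(m+n).choose m` numbers
  `∑_{j ∈ J} 2 cos (π j / L)`, one for each `m`-element subset `J` of `{1, …, m + n}`, and the rank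
  of `adjL m n` is the number of those `J` whose eigenvalue is not `0`;
* the kernel of `adjL m n` has dimension at least `symCount m n`, the number of the `m`-element
  subsets `J` of `{1, …, m + n}` with `j ∈ J → L - j ∈ J`, which is `0` if `m` and `n` are both odd
  and `⌊(m + n) / 2⌋.choose ⌊m / 2⌋` otherwise;
* if `min m n` is smaller than every odd prime factor of `L` then the kernel has dimension exactly
  `symCount m n`; and if `m` and `n` are not both even this is the only case in which it has that
  dimension.
-/

set_option autoImplicit false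

namespace Pool.Agent.Results.MP_34e3ac_co.Spectrum

open Pool.Agent.Results.MP_34e3ac_co.Nonsingular (adjL)

/-- `∑_{j ∈ J} 2 cos (π j / (m + n + 1))` -/
noncomputable def eig (m n : ℕ) (J : Finset ℕ) : ℝ :=
  ∑ j ∈ J, 2 * Real.cos (Real.pi * (j : ℝ) / ((m : ℝ) + (n : ℝ) + 1))

open scoped Classical in
/-- `0` if `m` and `n` are both odd, and `⌊(m + n) / 2⌋.choose ⌊m / 2⌋` otherwise -/
noncomputable def symCount (m n : ℕ) : ℕ :=
  if Odd m ∧ Odd n then 0 else ((m + n) / 2).choose (m / 2)

/-- `min m n` is smaller than every odd prime factor of `m + n + 1` -/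
def Small (m n : ℕ) : Prop :=
  ∀ p : ℕ, p.Prime → Odd p → p ∣ m + n + 1 → min m n < p

lemma eig_eq (m n : ℕ) (J : Finset ℕ) : eig m n J = Pool.Agent.Y399.LS.cs (m + n) J := by
  unfold eig Pool.Agent.Y399.LS.cs
  rw [Nat.cast_add]

lemma symCount_eq (m n : ℕ) : symCount m n = Pool.Agent.Y399.LS.sc m n := by
  unfold symCount Pool.Agent.Y399.LS.sc
  have h : (Odd m ∧ Odd n) ↔ ¬ (m % 2 = 0 ∨ (m + n) % 2 = 1) := by
    rw [Nat.odd_iff, Nat.odd_iff]
    omega
  by_cases h1 : m % 2 = 0 ∨ (m + n) % 2 = 1
  · rw [if_pos h1, if_neg (fun h2 => (h.mp h2) h1)]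
  · rw [if_neg h1, if_pos (h.mpr h1)]

open scoped Classical in
/-- **Theorem.** For positive integers `m, n`, let `adjL m n` be the real adjacency matrix of the
Hasse diagram of `L(m,n)`. (1) It is nonsingular iff `m` and `n` are both odd and `min m n` is
smaller than the least prime factor of `m + n + 1`. (2) Its characteristic polynomial is the
product of `X - ∑_{j ∈ J} 2 cos (π j / (m + n + 1))` over all `m`-element subsets `J` of
`{1, …, m + n}`. (3) Its rank is the number of the `J` for which that sum is not `0`. (4) Its
nullity is at least `symCount m n`. (5) If `min m n` is smaller than every odd prime factor of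
`m + n + 1` then its nullity is `symCount m n`. (6) If `m` or `n` is odd, then its nullity is
`symCount m n` if and only if `min m n` is smaller than every odd prime factor of `m + n + 1`. -/
theorem result : ∀ m n : ℕ, 1 ≤ m → 1 ≤ n →
    ((adjL m n).det ≠ 0 ↔ Odd m ∧ Odd n ∧ min m n < (m + n + 1).minFac) ∧
    (adjL m n).charpoly =
      ∏ J ∈ (Finset.Icc 1 (m + n)).powersetCard m, (Polynomial.X - Polynomial.C (eig m n J)) ∧
    (adjL m n).rank =
      (((Finset.Icc 1 (m + n)).powersetCard m).filter fun J => eig m n J ≠ 0).card ∧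
    (adjL m n).rank + symCount m n ≤ (m + n).choose m ∧
    (Small m n → (adjL m n).rank + symCount m n = (m + n).choose m) ∧
    (Odd m ∨ Odd n → ((adjL m n).rank + symCount m n = (m + n).choose m ↔ Small m n)) := by
  intro m n hm hn
  have h5 : Small m n → (adjL m n).rank + symCount m n = (m + n).choose m := by
    intro hs
    rw [symCount_eq]
    exact Pool.Agent.Y399.LS.nullity_min m n hs
  refine ⟨Pool.Agent.Results.MP_34e3ac_co.Nonsingular.result m n hm hn, ?_, ?_, ?_, h5, ?_⟩
  · rw [Pool.Agent.Y399.LS.charpoly_eq]
    exact Finset.prod_congr rfl fun J _ => by rw [eig_eq]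
  · rw [Pool.Agent.Y399.LS.rank_eq]
    congr 1
    ext J
    rw [Finset.mem_filter, Finset.mem_filter, eig_eq]
  · rw [symCount_eq]
    exact Pool.Agent.Y399.LS.nullity_ge m n
  · intro hodd
    refine ⟨fun h => ?_, h5⟩
    intro p hp hpo hd
    by_contra hcon
    have h1 := Pool.Agent.Y399.LS.nullity_gt m n hodd p hp hpo hd (by omega)
    rw [symCount_eq] at h
    omega

end Pool.Agent.Results.MP_34e3ac_co.Spectrum
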